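import Pool.Agent.SGD.Stmts
import Pool.Agent.Helper17_SGP.RMV
import Pool.Agent.Helper56_SGP.CTR
import Pool.Agent.Helper36_SGE.NT0

/-!
# Squad SGD, row INI: the first state
-/

namespace Pool.Agent.SGD.H97

open Pool.Agent.SGE Pool.Agent.SGP Pool.Agent.SGY Pool.Agent.SGD

theorem ini : IniStmt := by
  intro V _ a b c E F N
  have hch : ∀ x ∈ ([] : List V) ++ a :: c :: b :: [], E c x → x = a ∨ x = b := by
    intro x hx hE
    simp only [List.nil_append, List.mem_cons, List.not_mem_nil, or_false] at hx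
    rcases hx with h | h | h
    · exact Or.inl h
    · rw [h] at hE
      exact absurd hE (N.irr c)
    · exact Or.inr h
  obtain ⟨mid, N1, h1, _, _⟩ := Pool.Agent.SGP.H17.rmv (P := []) (Q := []) N hch
  have hca : c ≠ a := by
    have h4 := N.nd
    intro h
    rw [h] at h4
    simp at h4
  have e1 : offE E (∅ ∪ {c}) = rE E c := by
    funext x y
    simp [offE, rE]
  have e2 : offF F (∅ ∪ {c}) = rF F c := by
    funext x y z
    simp [offF, rF]
  have hac : E a c := by
    have hb : Fan E F b a c := N.bd.1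
    obtain ⟨l, _, h5, _, _, h6, _⟩ := hb
    exact (h6 c).2 (List.mem_of_getLast? h5)
  have hcaE : E c a := N.sym _ _ hac
  have hm : ∀ x : V, x ∈ (∅ ∪ {a, c} : Set V) ↔ x = a ∨ x = c := by
    intro x
    simp
  have e3 : onE E (∅ ∪ {a, c}) = fun u w => (u = c ∧ w = a) ∨ (u = a ∧ w = c) := by
    funext x y
    apply propext
    unfold onE
    rw [hm, hm]
    constructor
    · rintro ⟨hE, h5 | h5, h6 | h6⟩
      · rw [h5, h6] at hE
        exact absurd hE (N.irr a)
      · exact Or.inr ⟨h5, h6⟩
      · exact Or.inl ⟨h5, h6⟩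
      · rw [h5, h6] at hE
        exact absurd hE (N.irr c)
    · rintro (⟨h5, h6⟩ | ⟨h5, h6⟩)
      · rw [h5, h6]
        exact ⟨hcaE, Or.inr rfl, Or.inl rfl⟩
      · rw [h5, h6]
        exact ⟨hac, Or.inl rfl, Or.inr rfl⟩
  have e4 : onF F (∅ ∪ {a, c}) = fun _ _ _ => False := by
    funext x y z
    apply propext
    unfold onF
    rw [hm, hm, hm]
    constructor
    · rintro ⟨hF, h5, h6, h7⟩
      have n1 : x ≠ y := by
        intro h
        have h8 := N.fe _ _ _ hF
        rw [h] at h8
        exact N.irr y h8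
      have n2 : y ≠ z := by
        intro h
        have h8 := N.fe _ _ _ (N.rot _ _ _ hF)
        rw [h] at h8
        exact N.irr z h8
      have n3 : z ≠ x := by
        intro h
        have h8 := N.fe _ _ _ (N.rot _ _ _ (N.rot _ _ _ hF))
        rw [h] at h8
        exact N.irr x h8
      rcases h5 with h5 | h5 <;> rcases h6 with h6 | h6 <;> rcases h7 with h7 | h7
      · exact n1 (h5.trans h6.symm)
      · exact n1 (h5.trans h6.symm)
      · exact n3 (h7.trans h5.symm)
      · exact n2 (h6.trans h7.symm)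
      · exact n2 (h6.trans h7.symm)
      · exact n3 (h7.trans h5.symm)
      · exact n1 (h5.trans h6.symm)
      · exact n1 (h5.trans h6.symm)
    · intro h
      exact h.elim
  refine ⟨a :: (mid ++ [b]), ?_⟩
  refine ⟨N, Set.empty_subset _, ?_, ?_, ?_, ?_⟩
  · rw [e1, e2]
    exact N1
  · rw [e3, e4]
    exact Pool.Agent.SGE.H36.nt0 hca
  · rintro x ⟨y, hxy⟩ hx
    rw [e1]
    have hxc : x ≠ c := by
      intro h
      apply hx
      simp [h]
    by_cases hyc : y = c
    · rw [hyc] at hxy
      exact Pool.Agent.SGP.H56.contour_nb N1 ((h1 x).1 (N.sym _ _ hxy))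
    · exact ⟨y, hxy, hxc, hyc⟩
  · intro x hx
    exact absurd hx (Set.notMem_empty x)

end Pool.Agent.SGD.H97
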